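import Pool.Agent.X238.DW.Stm

/-! Project DW, part REP: bounded solutions of `u'' + c u' + l u = f` are given by the kernel. -/

set_option autoImplicit false

namespace Pool.Agent.X140.DW

open MeasureTheory Set Filter Topology Pool.Agent.X238.DW

/-- primitives of locally integrable functions: absolutely continuous -/
theorem ac_of {φ q : ℝ → ℝ} (hq : ∀ a b : ℝ, IntervalIntegrable q volume a b)
    (h : ∀ s t : ℝ, φ t - φ s = ∫ τ in s..t, q τ) (a b : ℝ) :
    AbsolutelyContinuousOnInterval φ a b := by
  have h1 : AbsolutelyContinuousOnInterval (fun x => ∫ v in a..x, q v) a b :=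
    (hq a b).absolutelyContinuousOnInterval_intervalIntegral (by simp)
  have h2 : AbsolutelyContinuousOnInterval (fun _ : ℝ => φ a) a b := by
    have : LipschitzOnWith 0 (fun _ : ℝ => φ a) (uIcc a b) :=
      (LipschitzWith.const (φ a)).lipschitzOnWith
    exact this.absolutelyContinuousOnInterval
  have h3 := h1.add h2
  have h4 : ((fun x => ∫ v in a..x, q v) + fun _ : ℝ => φ a) = φ := by
    funext x
    simp only [Pi.add_apply]
    rw [← h a x]
    ring
  rw [h4] at h3
  exact h3

/-- primitives of locally integrable functions: almost everywhere differentiable -/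
theorem ae_of {φ q : ℝ → ℝ} (hq : LocallyIntegrable q volume)
    (h : ∀ s t : ℝ, φ t - φ s = ∫ τ in s..t, q τ) : ∀ᵐ t, HasDerivAt φ (q t) t := by
  filter_upwards [_root_.LocallyIntegrable.ae_hasDerivAt_integral hq] with t ht
  have h1 := (ht 0).add_const (φ 0)
  have h4 : (fun x => (∫ v in (0 : ℝ)..x, q v) + φ 0) = φ := by
    funext x
    rw [← h 0 x]
    ring
  rw [h4] at h1
  exact h1

theorem ac_C1 {φ q : ℝ → ℝ} (hq : Continuous q) (h : ∀ t, HasDerivAt φ (q t) t) (a b : ℝ) :
    AbsolutelyContinuousOnInterval φ a b :=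
  ac_of (fun a b => hq.intervalIntegrable a b)
    (fun s t => (intervalIntegral.integral_eq_sub_of_hasDerivAt (fun x _ => h x)
      (hq.intervalIntegrable s t)).symm) a b

theorem t_REP : S_REP := by
  intro c l P G hK hD f u w M hfm hfM hu hw huM hwM hui hwi
  obtain ⟨γ, C, hγ, hC⟩ := hD
  have hM : 0 ≤ M := le_trans (abs_nonneg _) (huM 0)
  have hGc : Continuous G := continuous_iff_continuousAt.2 fun s => (hK.dG s).continuousAt
  have hPc : Continuous P := continuous_iff_continuousAt.2 fun s => (hK.dP s).continuousAt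
  -- local integrability
  have hfl : LocallyIntegrable f volume := by
    intro x
    refine ⟨Ioo (x - 1) (x + 1), Ioo_mem_nhds (by linarith) (by linarith), ?_⟩
    refine Measure.integrableOn_of_bounded (M := M) (by simp) hfm ?_
    filter_upwards [ae_restrict_of_ae hfM] with t ht
    simpa using ht
  have hql : LocallyIntegrable (fun τ => f τ - c * w τ - l * u τ) volume := by
    have h1 : LocallyIntegrable (fun τ => c * w τ) volume :=
      (continuous_const.mul hw).locallyIntegrable
    have h2 : LocallyIntegrable (fun τ => l * u τ) volume :=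
      (continuous_const.mul hu).locallyIntegrable
    exact (hfl.sub h1).sub h2
  have hqi : ∀ a b : ℝ, IntervalIntegrable (fun τ => f τ - c * w τ - l * u τ) volume a b :=
    fun a b => intervalIntegrable_iff.mpr
      ((hql.integrableOn_isCompact isCompact_uIcc).mono_set uIoc_subset_uIcc)
  have hwae := ae_of hql hwi
  have hud : ∀ t, HasDerivAt u (w t) t := by
    intro t
    have h1 := (intervalIntegral.integral_hasDerivAt_right (hw.intervalIntegrable 0 t)
      hw.aestronglyMeasurable.stronglyMeasurableAtFilter hw.continuousAt).add_const (u 0)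
    have h4 : (fun x => (∫ v in (0 : ℝ)..x, w v) + u 0) = u := by
      funext x
      rw [← hui 0 x]
      ring
    rw [h4] at h1
    exact h1
  have hG' : ∀ t, HasDerivAt (fun t => G (-t)) (c * G (-t) + l * P (-t)) t := by
    intro t
    have h1 := (hK.dG (-t)).comp t (hasDerivAt_neg t)
    refine h1.congr_deriv ?_
    ring
  have hP' : ∀ t, HasDerivAt (fun t => P (-t)) (-(G (-t))) t := by
    intro t
    have h1 := (hK.dP (-t)).comp t (hasDerivAt_neg t)
    refine h1.congr_deriv ?_
    ring
  have hGn : Continuous fun t => G (-t) := hGc.comp continuous_neg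
  have hPn : Continuous fun t => P (-t) := hPc.comp continuous_neg
  set H : ℝ → ℝ := fun t => G (-t) * w t - l * (P (-t) * u t) with hH
  have hHac : ∀ a b : ℝ, AbsolutelyContinuousOnInterval H a b := by
    intro a b
    have g1 : AbsolutelyContinuousOnInterval (fun t => G (-t)) a b :=
      ac_C1 ((continuous_const.mul hGn).add (continuous_const.mul hPn)) hG' a b
    have g2 : AbsolutelyContinuousOnInterval (fun t => P (-t)) a b :=
      ac_C1 hGn.neg hP' a b
    have g3 : AbsolutelyContinuousOnInterval u a b := ac_C1 hw hud a b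
    have g4 : AbsolutelyContinuousOnInterval w a b := ac_of hqi hwi a b
    exact (g1.fun_mul g4).fun_sub ((g2.fun_mul g3).const_mul l)
  have hHd : ∀ᵐ t, HasDerivAt H (G (-t) * f t) t := by
    filter_upwards [hwae] with t ht
    have h1 := ((hG' t).mul ht).sub (((hP' t).mul (hud t)).const_mul l)
    refine h1.congr_deriv ?_
    ring
  have hint : ∀ S : ℝ, ∫ s in (0 : ℝ)..S, G s * f (-s) = w 0 - H (-S) := by
    intro S
    have h1 : ∫ s in (0 : ℝ)..S, G s * f (-s) = ∫ t in (-S)..0, G (-t) * f t := by
      have h2 := intervalIntegral.integral_comp_neg (a := 0) (b := S)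
        (fun t => G (-t) * f t)
      simp only [neg_neg, neg_zero] at h2
      exact h2
    rw [h1]
    have h3 := (hHac (-S) 0).integral_deriv_eq_sub
    have h4 : ∫ t in (-S)..0, deriv H t = ∫ t in (-S)..0, G (-t) * f t := by
      apply intervalIntegral.integral_congr_ae
      filter_upwards [hHd] with t ht _
      exact ht.deriv
    rw [← h4, h3]
    simp [hH, hK.P0, hK.G0]
  -- limit
  have hGb : ∀ s : ℝ, 0 ≤ s → |G s| ≤ C * Real.exp (-(γ * s)) := fun s hs => (hC s hs).2
  have hexp : IntegrableOn (fun s : ℝ => C * Real.exp (-(γ * s)) * M) (Ioi 0) volume := by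
    have h1 : IntegrableOn (fun s : ℝ => Real.exp (-γ * s)) (Ioi 0) volume :=
      exp_neg_integrableOn_Ioi 0 hγ
    have h2 := (h1.const_mul C).mul_const M
    simp only [neg_mul] at h2
    exact h2
  have hfneg : AEStronglyMeasurable (fun s : ℝ => f (-s)) volume :=
    hfm.comp_measurePreserving (Measure.measurePreserving_neg volume)
  have hfnegM : ∀ᵐ s : ℝ, |f (-s)| ≤ M :=
    (Measure.measurePreserving_neg (volume : Measure ℝ)).quasiMeasurePreserving.ae hfM
  have hI : IntegrableOn (fun s : ℝ => G s * f (-s)) (Ioi 0) volume := by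
    refine Integrable.mono' hexp ((hGc.aestronglyMeasurable.mul hfneg).restrict) ?_
    filter_upwards [ae_restrict_of_ae hfnegM, ae_restrict_mem measurableSet_Ioi] with s hs hs0
    rw [Real.norm_eq_abs, abs_mul]
    exact mul_le_mul (hGb s (le_of_lt hs0)) hs (abs_nonneg _)
      (le_trans (abs_nonneg _) (hGb s (le_of_lt hs0)))
  have hlim1 : Tendsto (fun S : ℝ => ∫ s in (0 : ℝ)..S, G s * f (-s)) atTop
      (𝓝 (∫ s in Ioi (0 : ℝ), G s * f (-s))) :=
    intervalIntegral_tendsto_integral_Ioi 0 hI tendsto_id
  have hHlim : Tendsto (fun S : ℝ => H (-S)) atTop (𝓝 0) := by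
    have hb : ∀ᶠ S : ℝ in atTop, ‖H (-S)‖ ≤ (C * M + |l| * (C * M)) * Real.exp (-(γ * S)) := by
      filter_upwards [eventually_ge_atTop 0] with S hS
      have e1 : H (-S) = G S * w (-S) - l * (P S * u (-S)) := by simp [hH]
      rw [e1, Real.norm_eq_abs]
      have a1 : |G S * w (-S)| ≤ (C * Real.exp (-(γ * S))) * M := by
        rw [abs_mul]
        exact mul_le_mul (hC S hS).2 (hwM _) (abs_nonneg _)
          (le_trans (abs_nonneg _) (hC S hS).2)
      have a2 : |P S * u (-S)| ≤ (C * Real.exp (-(γ * S))) * M := by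
        rw [abs_mul]
        exact mul_le_mul (hC S hS).1 (huM _) (abs_nonneg _)
          (le_trans (abs_nonneg _) (hC S hS).1)
      have a3 : |l * (P S * u (-S))| ≤ |l| * ((C * Real.exp (-(γ * S))) * M) := by
        rw [abs_mul]
        exact mul_le_mul_of_nonneg_left a2 (abs_nonneg _)
      calc |G S * w (-S) - l * (P S * u (-S))| ≤ |G S * w (-S)| + |l * (P S * u (-S))| :=
            abs_sub _ _
        _ ≤ (C * Real.exp (-(γ * S))) * M + |l| * ((C * Real.exp (-(γ * S))) * M) :=
            add_le_add a1 a3
        _ = (C * M + |l| * (C * M)) * Real.exp (-(γ * S)) := by ring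
    have hz : Tendsto (fun S : ℝ => (C * M + |l| * (C * M)) * Real.exp (-(γ * S))) atTop
        (𝓝 0) := by
      have z1 : Tendsto (fun S : ℝ => Real.exp (-(γ * S))) atTop (𝓝 0) :=
        Real.tendsto_exp_neg_atTop_nhds_zero.comp (tendsto_id.const_mul_atTop hγ)
      simpa using z1.const_mul (C * M + |l| * (C * M))
    exact squeeze_zero_norm' hb hz
  have hlim2 : Tendsto (fun S : ℝ => ∫ s in (0 : ℝ)..S, G s * f (-s)) atTop (𝓝 (w 0)) := by
    have h1 : (fun S : ℝ => ∫ s in (0 : ℝ)..S, G s * f (-s)) = fun S => w 0 - H (-S) := by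
      funext S
      exact hint S
    rw [h1]
    simpa using hHlim.const_sub (w 0)
  exact tendsto_nhds_unique hlim2 hlim1

end Pool.Agent.X140.DW
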