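import Pool.Agent.X238.DW.Stm3

/-! Project DW, third stage, part UPP: the upper bound. -/

set_option autoImplicit false

namespace Pool.Agent.X140.DW

open MeasureTheory Set Filter Topology Pool.Agent.X238.DW
open Pool.Agent.Results.MP_8bcfe8_an.VelocityConstantMonotone (IsSol Adm intg2)

universe v

theorem t_UPP : S_UPP.{v} := by
  intro H _ _ _ A b T hb hT b' c hb' hc f u w F hfm hF hsol y
  obtain ⟨M, hM⟩ := hsol.bdd
  have hM0 : 0 ≤ M := (norm_nonneg _).trans (hM 0).1
  have hF0 : 0 ≤ F := by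
    obtain ⟨t, ht⟩ := hF.exists
    exact (norm_nonneg _).trans ht
  obtain ⟨γ0, hγ0, hE⟩ := Pool.Agent.X245.DW.t_EXB2.{v} c c b' hc le_rfl hb'
  obtain ⟨C, hC0, hC⟩ := hE γ0 hγ0 le_rfl
  refine ⟨M * (C * ‖y‖) * ∫ s in Ioi (0 : ℝ), Real.exp (-(γ0 / 2 * s)),
    fun ε B hε hε1 hB p h hK => ?_⟩
  have hγ2 : 0 < γ0 / 2 := by positivity
  have hdec : ∀ s : ℝ, 0 ≤ s → ‖p s‖ ≤ C * ‖y‖ * Real.exp (-(γ0 / 2 * s)) ∧
      ‖h s‖ ≤ C * ‖y‖ * Real.exp (-(γ0 / 2 * s)) := by
    intro s hs
    have h1 := hC H B hB.coer c ⟨le_rfl, le_rfl⟩ p h (fun _ => 0) 0 le_rfl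
      (fun s _ => hK.dP s) (fun s _ => by simpa using hK.dG s) hK.P0
      (fun s _ => by simp) s hs
    rw [hK.G0, add_zero] at h1
    exact h1
  have hhc : Continuous h := continuous_iff_continuousAt.2 fun s => (hK.dG s).continuousAt
  let S : H →L[ℝ] H := T.comp T
  have hS : ∀ x, S x = T (T x) := fun x => rfl
  have hSs : ∀ x z : H, inner ℝ (S x) z = inner ℝ x (S z) := fun x z => by
    rw [hS, hS, hT.symm, hT.symm]
  let D : H →L[ℝ] H := B.comp T
  have hD : ∀ x, D x = B (T x) := fun x => rfl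
  have hDn : ∀ x, ‖D x‖ ≤ ‖x‖ := fun x => hB.contr x
  have hkey : ∀ x, B (S x) + ε • D x = T x := fun x => hB.left (T x)
  -- integrability
  have hfi : ∀ s t, IntervalIntegrable f volume s t := by
    intro s t
    rw [intervalIntegrable_iff]
    refine Integrable.mono' (g := fun _ => F) (integrableOn_const (by
      rw [uIoc]; simp)) hfm.restrict ?_
    exact ae_restrict_of_ae hF
  have hSfm : AEStronglyMeasurable (fun t => S (f t)) volume :=
    S.continuous.comp_aestronglyMeasurable hfm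
  have hDc : Continuous fun t => D (u t) := D.continuous.comp hsol.cont_u
  have hfm' : AEStronglyMeasurable (fun t => S (f t) - ε • D (u t)) volume :=
    hSfm.sub (hDc.const_smul ε).aestronglyMeasurable
  have hSn : ∀ x, ‖S x‖ ≤ ‖S‖ * ‖x‖ := fun x => S.le_opNorm x
  set M' : ℝ := ‖S‖ * F + M + ‖S‖ * M with hM'
  have hSF : 0 ≤ ‖S‖ * F := mul_nonneg (norm_nonneg _) hF0
  have hSM : 0 ≤ ‖S‖ * M := mul_nonneg (norm_nonneg _) hM0
  have hεD : ∀ t, ‖ε • D (u t)‖ ≤ ε * M := by
    intro t
    rw [norm_smul, Real.norm_eq_abs, abs_of_pos hε]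
    exact mul_le_mul_of_nonneg_left ((hDn _).trans (hM t).1) hε.le
  have hfb : ∀ᵐ t, ‖S (f t) - ε • D (u t)‖ ≤ M' := by
    filter_upwards [hF] with t ht
    refine (norm_sub_le _ _).trans ?_
    have h1 : ‖S (f t)‖ ≤ ‖S‖ * F :=
      (hSn _).trans (mul_le_mul_of_nonneg_left ht (norm_nonneg _))
    have h2 := hεD t
    have h3 : ε * M ≤ M := by nlinarith
    linarith
  have hSfi : ∀ s t, IntervalIntegrable (fun t => S (f t)) volume s t := by
    intro s t
    rw [intervalIntegrable_iff]
    refine Integrable.mono' (g := fun _ => ‖S‖ * F) (integrableOn_const (by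
      rw [uIoc]; simp)) hSfm.restrict ?_
    filter_upwards [ae_restrict_of_ae hF] with τ hτ
    exact (hSn _).trans (mul_le_mul_of_nonneg_left hτ (norm_nonneg _))
  have hrep := Pool.Agent.X131.DW.t_REP2.{v} H c b' B hb' hB.coer y p h hK
    ⟨γ0 / 2, C * ‖y‖, hγ2, hdec⟩ (fun t => S (f t) - ε • D (u t)) (fun t => S (u t))
    (fun t => S (w t)) M' hfm' hfb (S.continuous.comp hsol.cont_u) (S.continuous.comp hsol.cont_w)
    (fun t => by
      have h1 := (hSn (u t)).trans (mul_le_mul_of_nonneg_left (hM t).1 (norm_nonneg _))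
      show ‖S (u t)‖ ≤ M'
      linarith)
    (fun t => by
      have h1 := (hSn (w t)).trans (mul_le_mul_of_nonneg_left (hM t).2 (norm_nonneg _))
      show ‖S (w t)‖ ≤ M'
      linarith)
    (by
      intro s t
      show S (u t) - S (u s) = _
      rw [← map_sub, hsol.eq_u s t]
      exact (S.intervalIntegral_comp_comm (hsol.cont_w.intervalIntegrable _ _)).symm)
    (by
      intro s t
      show S (w t) - S (w s) = _
      have hAP : Continuous fun τ => B (S (u τ)) :=
        B.continuous.comp (S.continuous.comp hsol.cont_u)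
      have hcP : Continuous fun τ => c • S (w τ) :=
        (S.continuous.comp hsol.cont_w).const_smul c
      have hint : IntervalIntegrable
          (fun τ => S (f τ) - ε • D (u τ) - c • S (w τ) - B (S (u τ))) volume s t :=
        (((hSfi s t).sub ((hDc.const_smul ε).intervalIntegrable _ _)).sub
          (hcP.intervalIntegrable _ _)).sub (hAP.intervalIntegrable _ _)
      refine ext_inner_right ℝ fun z => ?_
      have h1 : inner ℝ (S (w t) - S (w s)) z = inner ℝ (w t - w s) (S z) := by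
        rw [← map_sub, hSs]
      rw [h1]
      have h3 := hsol.eq_w ⟨S z, hT.mem (T z)⟩ s t
      have h30 : inner ℝ (w t - w s) (S z) = ∫ τ in s..t, (inner ℝ (f τ) (S z) -
        c * inner ℝ (w τ) (S z) - inner ℝ (u τ) (A ⟨S z, hT.mem (T z)⟩)) := h3
      rw [h30]
      have h2 : inner ℝ (∫ τ in s..t, (S (f τ) - ε • D (u τ) - c • S (w τ) - B (S (u τ)))) z =
          ∫ τ in s..t, inner ℝ (S (f τ) - ε • D (u τ) - c • S (w τ) - B (S (u τ))) z := by
        have := ContinuousLinearMap.intervalIntegral_comp_comm (innerSL ℝ z) hint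
        simp only [innerSL_apply_apply] at this
        rw [real_inner_comm, ← this]
        congr 1
        ext τ
        rw [real_inner_comm]
      rw [h2]
      congr 1
      ext τ
      have h4 : A ⟨S z, hT.mem (T z)⟩ = T z := hT.right (T z) _
      have h5 : inner ℝ (u τ) (T z) = inner ℝ (T (u τ)) z := (hT.symm _ _).symm
      rw [h4, h5, ← hkey (u τ), inner_sub_left, inner_sub_left, inner_sub_left, inner_add_left,
        real_inner_smul_left, real_inner_smul_left, hSs (f τ), hSs (w τ)]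
      ring)
  have h0 : inner ℝ (w 0) (T (T y)) = ∫ s in Ioi (0 : ℝ),
      inner ℝ (S (f (-s)) - ε • D (u (-s))) (h s) := by
    have h1 : inner ℝ (w 0) (T (T y)) = inner ℝ (S (w 0)) y := (hSs _ _).symm
    rw [h1]
    exact hrep
  rw [h0]
  have hSh : IntegrableOn (fun s => ‖S (h s)‖) (Ioi 0) := by
    refine (intg2 (C := ‖S‖ * (C * ‖y‖)) hγ2 (S.continuous.comp hhc) fun s hs => ?_).norm
    refine (hSn _).trans ?_
    rw [mul_assoc]
    exact mul_le_mul_of_nonneg_left (hdec s hs).2 (norm_nonneg _)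
  have hex : IntegrableOn (fun s : ℝ => Real.exp (-(γ0 / 2 * s))) (Ioi 0) := by
    have h1 := exp_neg_integrableOn_Ioi 0 hγ2
    simp only [neg_mul] at h1
    exact h1
  have hFn : ∀ᵐ s, ‖f (-s)‖ ≤ F :=
    (Measure.measurePreserving_neg (volume : Measure ℝ)).quasiMeasurePreserving.ae hF
  have hg : IntegrableOn (fun s => ‖S (h s)‖ * F +
      M * (C * ‖y‖) * ε * Real.exp (-(γ0 / 2 * s))) (Ioi 0) :=
    (hSh.mul_const F).add (hex.const_mul _)
  have hle : ∀ᵐ s ∂(volume.restrict (Ioi (0 : ℝ))),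
      ‖inner ℝ (S (f (-s)) - ε • D (u (-s))) (h s)‖ ≤ ‖S (h s)‖ * F +
        M * (C * ‖y‖) * ε * Real.exp (-(γ0 / 2 * s)) := by
    filter_upwards [ae_restrict_of_ae hFn, ae_restrict_mem measurableSet_Ioi] with s hfs hs
    rw [inner_sub_left, hSs]
    refine (norm_sub_le _ _).trans (add_le_add ?_ ?_)
    · refine (norm_inner_le_norm _ _).trans ?_
      rw [mul_comm]
      exact mul_le_mul_of_nonneg_left hfs (norm_nonneg _)
    · refine (norm_inner_le_norm _ _).trans ?_
      have h1 := mul_le_mul (hεD (-s)) (hdec s (le_of_lt hs)).2 (norm_nonneg _)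
        (mul_nonneg hε.le hM0)
      refine h1.trans (le_of_eq ?_)
      ring
  have hfin := norm_integral_le_of_norm_le hg hle
  rw [Real.norm_eq_abs] at hfin
  refine hfin.trans (le_of_eq ?_)
  rw [integral_add (hSh.mul_const F) (hex.const_mul _), integral_mul_const, integral_const_mul]
  have h9 : ∀ s, S (h s) = T (T (h s)) := fun s => rfl
  simp only [h9]
  ring

end Pool.Agent.X140.DW
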